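import Mathlib
import Pool.Agent.R285.BaryD

/-!
# Barycentres of measures invariant under `w^p = z^q` and Sturmian measures
-/

set_option autoImplicit false

open Real Set Filter Topology MeasureTheory

namespace Pool.Agent.Results.MP_68a9a2_an.Barycentres

open Pool.Agent.R285.Bary

/-- The set of barycentres of invariant measures. -/
def BSet (p q : ℕ) : Set ℂ := {b | ∃ μ : Measure S1, IsInv p q μ ∧ bary μ = b}

theorem integrable_id (μ : Measure S1) [IsFiniteMeasure μ] : Integrable (fun z : S1 => (z : ℂ)) μ := by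
  apply Integrable.of_bound (C := 1)
  · exact measurable_subtype_coe.aestronglyMeasurable
  · exact Eventually.of_forall fun z => by simp

theorem convex_BSet (p q : ℕ) : Convex ℝ (BSet p q) := by
  rintro b1 ⟨μ1, ⟨hp1, m1, hm1, hae1, hf1, hs1⟩, rfl⟩ b2 ⟨μ2, ⟨hp2, m2, hm2, hae2, hf2, hs2⟩, rfl⟩
    s t hs ht hst
  have hsum : ENNReal.ofReal s + ENNReal.ofReal t = 1 := by
    rw [← ENNReal.ofReal_add hs ht, hst, ENNReal.ofReal_one]
  refine ⟨ENNReal.ofReal s • μ1 + ENNReal.ofReal t • μ2, ⟨⟨?_⟩,
    ENNReal.ofReal s • m1 + ENNReal.ofReal t • m2, ⟨?_⟩, ?_, ?_, ?_⟩, ?_⟩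
  · simp [hsum]
  · simp [hsum]
  · rw [ae_iff] at hae1 hae2 ⊢
    simp [hae1, hae2]
  · rw [Measure.map_add _ _ measurable_fst, Measure.map_smul, Measure.map_smul, hf1, hf2]
  · rw [Measure.map_add _ _ measurable_snd, Measure.map_smul, Measure.map_smul, hs1, hs2]
  · unfold bary
    rw [integral_add_measure, integral_smul_measure, integral_smul_measure,
      ENNReal.toReal_ofReal hs, ENNReal.toReal_ofReal ht]
    · exact (integrable_id μ1).smul_measure ENNReal.ofReal_ne_top
    · exact (integrable_id μ2).smul_measure ENNReal.ofReal_ne_top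

/-- A boundary point of a convex planar set maximises a non-zero linear functional. -/
theorem support_functional {B : Set ℂ} (hB : Convex ℝ B) {b : ℂ} (hb : b ∉ interior B) :
    ∃ f : ℂ →ₗ[ℝ] ℝ, f ≠ 0 ∧ (b ∈ B → ∀ b' ∈ B, f b' ≤ f b) := by
  by_cases hne : (interior B).Nonempty
  · obtain ⟨f, hf⟩ := geometric_hahn_banach_open_point hB.interior isOpen_interior hb
    refine ⟨f.toLinearMap, ?_, fun _ b' hb' => ?_⟩
    · intro h0
      obtain ⟨x, hx⟩ := hne
      have h1 := hf x hx
      have e1 : f x = 0 := by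
        have := LinearMap.congr_fun h0 x
        simpa using this
      have e2 : f b = 0 := by
        have := LinearMap.congr_fun h0 b
        simpa using this
      rw [e1, e2] at h1
      exact lt_irrefl _ h1
    · have hcl : b' ∈ closure (interior B) := by
        rw [hB.closure_interior_eq_closure_of_nonempty_interior hne]
        exact subset_closure hb'
      have hclosed : IsClosed {x | f x ≤ f b} := isClosed_le f.continuous continuous_const
      have hsub : interior B ⊆ {x | f x ≤ f b} := fun x hx => (hf x hx).le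
      exact (closure_minimal hsub hclosed) hcl
  · have h1 : affineSpan ℝ B ≠ ⊤ := by
      intro h
      exact hne (hB.interior_nonempty_iff_affineSpan_eq_top.mpr h)
    by_cases hBe : b ∈ B
    · have hbs : b ∈ affineSpan ℝ B := subset_affineSpan ℝ B hBe
      have h2 : (affineSpan ℝ B).direction < ⊤ := by
        rw [lt_top_iff_ne_top]
        intro h
        apply h1
        rwa [AffineSubspace.direction_eq_top_iff_of_nonempty ⟨b, hbs⟩] at h
      obtain ⟨f, hf0, hf⟩ := Submodule.exists_le_ker_of_lt_top _ h2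
      refine ⟨f, hf0, fun _ b' hb' => ?_⟩
      have h3 : b' -ᵥ b ∈ (affineSpan ℝ B).direction :=
        AffineSubspace.vsub_mem_direction (subset_affineSpan ℝ B hb') hbs
      have h4 := hf h3
      rw [LinearMap.mem_ker, vsub_eq_sub, map_sub] at h4
      linarith
    · exact ⟨Complex.reLm, fun h => by
        have := LinearMap.congr_fun h 1
        simp at this, fun h => absurd h hBe⟩

theorem functional_form (f : ℂ →ₗ[ℝ] ℝ) (hf : f ≠ 0) :
    ∃ (T r : ℝ), 0 < r ∧ ∀ x : ℂ, f x = r * (Complex.exp (-(T * Complex.I)) * x).re := by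
  set v : ℂ := ⟨f 1, f Complex.I⟩ with hv
  have hfx : ∀ x : ℂ, f x = x.re * f 1 + x.im * f Complex.I := by
    intro x
    have h1 : x = x.re • (1 : ℂ) + x.im • Complex.I := by
      apply Complex.ext <;> simp
    conv_lhs => rw [h1]
    rw [map_add, map_smul, map_smul]
    rfl
  have hv0 : v ≠ 0 := by
    intro h
    apply hf
    ext x
    have e1 : f 1 = 0 := congrArg Complex.re h
    have e2 : f Complex.I = 0 := congrArg Complex.im h
    rw [hfx, e1, e2]
    simp
  refine ⟨Complex.arg v, ‖v‖, norm_pos_iff.mpr hv0, fun x => ?_⟩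
  have h1 : f 1 = ‖v‖ * Real.cos (Complex.arg v) := by
    rw [Complex.norm_mul_cos_arg]
  have h2 : f Complex.I = ‖v‖ * Real.sin (Complex.arg v) := by
    rw [Complex.norm_mul_sin_arg]
  rw [hfx, h1, h2, show -((Complex.arg v : ℝ) * Complex.I : ℂ) =
    ((-Complex.arg v : ℝ) : ℂ) * Complex.I by push_cast; ring, Complex.mul_re,
    Complex.exp_ofReal_mul_I_re, Complex.exp_ofReal_mul_I_im, Real.cos_neg, Real.sin_neg]
  ring

theorem frontier_iff {p q : ℕ} {μ : Measure S1} (hμ : IsInv p q μ) :
    bary μ ∈ frontier (BSet p q) ↔ ∃ T : ℝ, ∀ μ' : Measure S1, IsInv p q μ' →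
      ∫ z, hh T (ar z) ∂μ ≤ ∫ z, hh T (ar z) ∂μ' := by
  have hpr := hμ.1
  have hmem : bary μ ∈ BSet p q := ⟨μ, hμ, rfl⟩
  constructor
  · intro hb
    obtain ⟨f, hf0, hf⟩ := support_functional (convex_BSet p q) hb.2
    obtain ⟨T, r, hr, hfr⟩ := functional_form f hf0
    refine ⟨T, fun μ' hμ' => ?_⟩
    have hpr' := hμ'.1
    have h1 := hf hmem (bary μ') ⟨μ', hμ', rfl⟩
    rw [hfr, hfr] at h1
    have h2 := le_of_mul_le_mul_left h1 hr
    rw [int_hh, int_hh]
    linarith
  · rintro ⟨T, hT⟩
    refine ⟨subset_closure hmem, fun hint => ?_⟩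
    rw [mem_interior_iff_mem_nhds, Metric.mem_nhds_iff] at hint
    obtain ⟨ε, hε, hball⟩ := hint
    have hx : bary μ + (ε / 2 : ℝ) * Complex.exp (T * Complex.I) ∈ BSet p q := by
      apply hball
      rw [Metric.mem_ball, dist_eq_norm, add_sub_cancel_left, norm_mul,
        Complex.norm_exp_ofReal_mul_I, mul_one, Complex.norm_real, Real.norm_eq_abs,
        abs_of_pos (by linarith)]
      linarith
    obtain ⟨μ', hμ', he⟩ := hx
    have hpr' := hμ'.1
    have h1 := hT μ' hμ'
    rw [int_hh, int_hh, he, mul_add] at h1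
    have h2 : Complex.exp (-(T * Complex.I)) * (((ε / 2 : ℝ) : ℂ) * Complex.exp (T * Complex.I)) =
        ((ε / 2 : ℝ) : ℂ) := by
      rw [mul_left_comm, ← Complex.exp_add, neg_add_cancel, Complex.exp_zero, mul_one]
    rw [h2, Complex.add_re, Complex.ofReal_re] at h1
    linarith

/-- **Q1 is true.** For all integers `1 ≤ p < q` and every `F_{p,q}`-invariant Borel probability
measure `μ` on the circle, the barycentre of `μ` lies on the boundary of the set of barycentres if
and only if `μ` is Sturmian. -/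
theorem result (p q : ℕ) (hp : 1 ≤ p) (hpq : p < q) (μ : Measure S1) (hμ : IsInv p q μ) :
    bary μ ∈ frontier (BSet p q) ↔ IsSturmian q μ := by
  rw [frontier_iff hμ]
  constructor
  · rintro ⟨T, hT⟩
    exact min_sturm hp hpq hμ T hT
  · intro h
    exact sturm_min hp hpq hμ h

end Pool.Agent.Results.MP_68a9a2_an.Barycentres
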